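import Mathlib

/-!
# The exponent `d - 1` is too small (Q2): already for `d = 3`

For `n = 3 t` and `0 ≤ a, b < n`, `1 ≤ c < n` consider the lattice generated by `(n, 0, 0)`,
`(a, n, 0)`, `(b, c, t)`.  Each of its cosets meets `[n]^3` in exactly three points, one in each of
the layers `z₀`, `z₀ + t`, `z₀ + 2 t`, so that it gives `3 ^ (n ^ 3 / 3)` tiles.  The partitions of
the cube obtained from the `n * n * (n - 1)` different choices of `(a, b, c)` are different, and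
then two of these families of tiles have few members in common.
-/

set_option autoImplicit false

namespace Pool.Agent.Results.MP_13da68_co.ExponentTooSmall

/-- The finite set `S ⊆ ℤ^d` tiles `ℤ^d` by translations: for some `T ⊆ ℤ^d` every `x ∈ ℤ^d` can be
written in exactly one way as `x = s + t` with `s ∈ S`, `t ∈ T`. -/
def Tiles {d : ℕ} (S : Finset (Fin d → ℤ)) : Prop :=
  ∃ T : Set (Fin d → ℤ), ∀ x : Fin d → ℤ,
    ∃! p : (Fin d → ℤ) × (Fin d → ℤ), p.1 ∈ S ∧ p.2 ∈ T ∧ x = p.1 + p.2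

/-- the cube `[n]^d = {1, …, n}^d` -/
noncomputable def cube (d n : ℕ) : Finset (Fin d → ℤ) := Fintype.piFinset fun _ => Finset.Icc 1 (n : ℤ)

open Classical in
/-- `t_{n,d}`: the number of subsets `S` of `[n]^d` that tile `ℤ^d` by translations -/
noncomputable def t (n d : ℕ) : ℕ := ((cube d n).powerset.filter fun S => Tiles S).card

section construction

/-- the point of the cube in layer `k` of the class of `(x, y, z)` -/
def P (n m : ℕ) (a b c : ℤ) (z x y k : ℤ) : Fin 3 → ℤ :=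
  ![(x + k * b - a * ((y + k * c) / n)) % n + 1, (y + k * c) % n + 1, z + k * m + 1]

/-- the base point of the class of `v` -/
def red (n m : ℕ) (a b c : ℤ) (v : Fin 3 → ℤ) : ℤ × ℤ × ℤ :=
  ((v 0 - 1 - (v 2 - 1) / m * b - (v 1 - 1 - (v 2 - 1) / m * c) / n * a) % n,
    (v 1 - 1 - (v 2 - 1) / m * c) % n, (v 2 - 1) % m)

/-- the lattice -/
def L (n m : ℕ) (a b c : ℤ) : Set (Fin 3 → ℤ) :=
  {v | ∃ k l j : ℤ, v 0 = k * b + l * a + j * n ∧ v 1 = k * c + l * n ∧ v 2 = k * m}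

variable {n m : ℕ} {a b c : ℤ}

theorem red_P (hm : 0 < m) (hn : 0 < n) {x y z : ℤ} (k : ℤ) (hx : 0 ≤ x) (hx' : x < n) (hy : 0 ≤ y)
    (hy' : y < n) (hz : 0 ≤ z) (hz' : z < m) : red n m a b c (P n m a b c z x y k) = (x, y, z) := by
  have hm' : (m : ℤ) ≠ 0 := by exact_mod_cast hm.ne'
  have hn' : (n : ℤ) ≠ 0 := by exact_mod_cast hn.ne'
  have h1 : (z + k * m) / (m : ℤ) = k := by
    rw [Int.add_mul_ediv_right _ _ hm', Int.ediv_eq_zero_of_lt hz hz', zero_add]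
  have h2 : (z + k * m) % (m : ℤ) = z := by
    rw [Int.add_mul_emod_self_right, Int.emod_eq_of_lt hz hz']
  have h3 : (y + k * c) % (n : ℤ) - k * c = y + (-((y + k * c) / n)) * n := by
    have := Int.emod_add_mul_ediv (y + k * c) n
    linarith
  have h4 : ((y + k * c) % (n : ℤ) - k * c) / n = -((y + k * c) / n) := by
    rw [h3, Int.add_mul_ediv_right _ _ hn', Int.ediv_eq_zero_of_lt hy hy', zero_add]
  have h5 : ((y + k * c) % (n : ℤ) - k * c) % n = y := by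
    rw [h3, Int.add_mul_emod_self_right, Int.emod_eq_of_lt hy hy']
  simp only [red, P, Matrix.cons_val_zero, Matrix.cons_val_one, Matrix.cons_val, add_sub_cancel_right, h1, h2, h4, h5]
  have h6 : (x + k * b - a * ((y + k * c) / n)) % (n : ℤ) - k * b - -((y + k * c) / n) * a =
      x + (-((x + k * b - a * ((y + k * c) / n)) / n)) * n := by
    have := Int.emod_add_mul_ediv (x + k * b - a * ((y + k * c) / n)) n
    linarith
  rw [h6, Int.add_mul_emod_self_right, Int.emod_eq_of_lt hx hx']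

theorem red_range (hm : 0 < m) (hn : 0 < n) (v : Fin 3 → ℤ) :
    0 ≤ (red n m a b c v).1 ∧ (red n m a b c v).1 < n ∧ 0 ≤ (red n m a b c v).2.1 ∧
      (red n m a b c v).2.1 < n ∧ 0 ≤ (red n m a b c v).2.2 ∧ (red n m a b c v).2.2 < m := by
  have hm' : (0 : ℤ) < m := by exact_mod_cast hm
  have hn' : (0 : ℤ) < n := by exact_mod_cast hn
  exact ⟨Int.emod_nonneg _ hn'.ne', Int.emod_lt_of_pos _ hn', Int.emod_nonneg _ hn'.ne',
    Int.emod_lt_of_pos _ hn', Int.emod_nonneg _ hm'.ne', Int.emod_lt_of_pos _ hm'⟩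

theorem red_add (hm : 0 < m) (hn : 0 < n) (v w : Fin 3 → ℤ) (hw : w ∈ L n m a b c) :
    red n m a b c (v + w) = red n m a b c v := by
  have hm' : (m : ℤ) ≠ 0 := by exact_mod_cast hm.ne'
  have hn' : (n : ℤ) ≠ 0 := by exact_mod_cast hn.ne'
  obtain ⟨k, l, j, h0, h1, h2⟩ := hw
  simp only [red, Pi.add_apply, h0, h1, h2]
  have e2 : (v 2 + k * (m : ℤ) - 1) / m = (v 2 - 1) / m + k := by
    rw [show v 2 + k * (m : ℤ) - 1 = (v 2 - 1) + k * m by ring, Int.add_mul_ediv_right _ _ hm']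
  have e2' : (v 2 + k * (m : ℤ) - 1) % m = (v 2 - 1) % m := by
    rw [show v 2 + k * (m : ℤ) - 1 = (v 2 - 1) + k * m by ring, Int.add_mul_emod_self_right]
  rw [e2, e2']
  have e1 : v 1 + (k * c + l * (n : ℤ)) - 1 - ((v 2 - 1) / m + k) * c =
      (v 1 - 1 - (v 2 - 1) / m * c) + l * n := by ring
  rw [e1, Int.add_mul_ediv_right _ _ hn', Int.add_mul_emod_self_right]
  have e0 : v 0 + (k * b + l * a + j * (n : ℤ)) - 1 - ((v 2 - 1) / m + k) * b -
      ((v 1 - 1 - (v 2 - 1) / m * c) / n + l) * a =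
      (v 0 - 1 - (v 2 - 1) / m * b - (v 1 - 1 - (v 2 - 1) / m * c) / n * a) + j * n := by ring
  rw [e0, Int.add_mul_emod_self_right]

theorem sub_mem (v w : Fin 3 → ℤ) (h : red n m a b c v = red n m a b c w) :
    v - w ∈ L n m a b c := by
  simp only [red, Prod.mk.injEq] at h
  obtain ⟨h0, h1, h2⟩ := h
  set kv := (v 2 - 1) / (m : ℤ) with hkv
  set kw := (w 2 - 1) / (m : ℤ) with hkw
  set lv := (v 1 - 1 - kv * c) / (n : ℤ) with hlv
  set lw := (w 1 - 1 - kw * c) / (n : ℤ) with hlw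
  set jv := (v 0 - 1 - kv * b - lv * a) / (n : ℤ) with hjv
  set jw := (w 0 - 1 - kw * b - lw * a) / (n : ℤ) with hjw
  refine ⟨kv - kw, lv - lw, jv - jw, ?_, ?_, ?_⟩
  · have e1 := Int.emod_add_mul_ediv (v 0 - 1 - kv * b - lv * a) n
    have e2 := Int.emod_add_mul_ediv (w 0 - 1 - kw * b - lw * a) n
    rw [← hjv, h0] at e1
    rw [← hjw] at e2
    simp only [Pi.sub_apply]
    linear_combination e2 - e1
  · have e1 := Int.emod_add_mul_ediv (v 1 - 1 - kv * c) n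
    have e2 := Int.emod_add_mul_ediv (w 1 - 1 - kw * c) n
    rw [← hlv, h1] at e1
    rw [← hlw] at e2
    simp only [Pi.sub_apply]
    linear_combination e2 - e1
  · have e1 := Int.emod_add_mul_ediv (v 2 - 1) m
    have e2 := Int.emod_add_mul_ediv (w 2 - 1) m
    rw [← hkv, h2] at e1
    rw [← hkw] at e2
    simp only [Pi.sub_apply]
    linear_combination e2 - e1

end construction

section families

/-- the base points -/
abbrev Q (n : ℕ) : Type := Fin n × Fin n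

/-- the tile given by a choice function `σ` -/
noncomputable def S (n m : ℕ) (a b c : ℤ) (σ : Fin m → Q n → Fin 3) : Finset (Fin 3 → ℤ) :=
  Finset.univ.image fun p : Fin m × Q n =>
    P n m a b c ((p.1 : ℕ) : ℤ) ((p.2.1 : ℕ) : ℤ) ((p.2.2 : ℕ) : ℤ) ((σ p.1 p.2 : ℕ) : ℤ)

variable {n m : ℕ} {a b c : ℤ}

theorem mem_S {σ : Fin m → Q n → Fin 3} {v : Fin 3 → ℤ} :
    v ∈ S n m a b c σ ↔ ∃ (z : Fin m) (q : Q n),
      P n m a b c ((z : ℕ) : ℤ) ((q.1 : ℕ) : ℤ) ((q.2 : ℕ) : ℤ) ((σ z q : ℕ) : ℤ) = v := by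
  simp only [S, Finset.mem_image, Finset.mem_univ, true_and, Prod.exists]

theorem red_P' (hm : 0 < m) (hn : 0 < n) (z : Fin m) (q : Q n) (k : ℤ) :
    red n m a b c (P n m a b c ((z : ℕ) : ℤ) ((q.1 : ℕ) : ℤ) ((q.2 : ℕ) : ℤ) k) =
      (((q.1 : ℕ) : ℤ), ((q.2 : ℕ) : ℤ), ((z : ℕ) : ℤ)) := by
  apply red_P hm hn
  · positivity
  · exact_mod_cast q.1.2
  · positivity
  · exact_mod_cast q.2.2
  · positivity
  · exact_mod_cast z.2

/-- the two coordinates of a point and its layer are determined by the reduction -/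
theorem eq_of_red {z z' : Fin m} {q q' : Q n}
    (h : (((q.1 : ℕ) : ℤ), ((q.2 : ℕ) : ℤ), ((z : ℕ) : ℤ)) =
      (((q'.1 : ℕ) : ℤ), ((q'.2 : ℕ) : ℤ), ((z' : ℕ) : ℤ))) : z = z' ∧ q = q' := by
  simp only [Prod.mk.injEq, Nat.cast_inj] at h
  exact ⟨Fin.ext h.2.2, Prod.ext (Fin.ext h.1) (Fin.ext h.2.1)⟩

theorem P_inj (hm : 0 < m) {z x y k k' : ℤ} (h : P n m a b c z x y k = P n m a b c z x y k') :
    k = k' := by
  have h2 := congrFun h 2
  simp only [P, Matrix.cons_val] at h2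
  have hm' : (m : ℤ) ≠ 0 := by exact_mod_cast hm.ne'
  have : k * (m : ℤ) = k' * m := by linarith
  exact mul_right_cancel₀ hm' this

theorem S_inj (hm : 0 < m) (hn : 0 < n) : Function.Injective (S n m a b c) := by
  intro σ σ' h
  funext z q
  have h1 : P n m a b c ((z : ℕ) : ℤ) ((q.1 : ℕ) : ℤ) ((q.2 : ℕ) : ℤ) ((σ z q : ℕ) : ℤ) ∈
      S n m a b c σ' := by rw [← h]; exact mem_S.2 ⟨z, q, rfl⟩
  obtain ⟨z', q', h2⟩ := mem_S.1 h1
  have h3 := congrArg (red n m a b c) h2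
  rw [red_P' hm hn, red_P' hm hn] at h3
  obtain ⟨rfl, rfl⟩ := eq_of_red h3
  have h4 := P_inj hm h2
  exact (Fin.ext (by exact_mod_cast h4)).symm

theorem S_unique (hm : 0 < m) (hn : 0 < n) {σ : Fin m → Q n → Fin 3} {v w : Fin 3 → ℤ}
    (hv : v ∈ S n m a b c σ) (hw : w ∈ S n m a b c σ) (h : red n m a b c v = red n m a b c w) :
    v = w := by
  obtain ⟨z, q, rfl⟩ := mem_S.1 hv
  obtain ⟨z', q', rfl⟩ := mem_S.1 hw
  rw [red_P' hm hn, red_P' hm hn] at h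
  obtain ⟨rfl, rfl⟩ := eq_of_red h
  rfl

theorem S_sub (hnm : n = 3 * m) (hm : 0 < m) (σ : Fin m → Q n → Fin 3) :
    S n m a b c σ ⊆ cube 3 n := by
  intro v hv
  obtain ⟨z, q, rfl⟩ := mem_S.1 hv
  have hn' : (0 : ℤ) < n := by rw [hnm]; exact_mod_cast (by omega)
  rw [cube, Fintype.mem_piFinset]
  intro i
  rw [Finset.mem_Icc]
  fin_cases i
  · simp only [P]
    have h1 := Int.emod_nonneg (((q.1 : ℕ) : ℤ) + ((σ z q : ℕ) : ℤ) * b -
      a * ((((q.2 : ℕ) : ℤ) + ((σ z q : ℕ) : ℤ) * c) / n)) hn'.ne'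
    have h2 := Int.emod_lt_of_pos (((q.1 : ℕ) : ℤ) + ((σ z q : ℕ) : ℤ) * b -
      a * ((((q.2 : ℕ) : ℤ) + ((σ z q : ℕ) : ℤ) * c) / n)) hn'
    constructor
    · simpa using h1
    · simpa using h2
  · simp only [P]
    have h1 := Int.emod_nonneg (((q.2 : ℕ) : ℤ) + ((σ z q : ℕ) : ℤ) * c) hn'.ne'
    have h2 := Int.emod_lt_of_pos (((q.2 : ℕ) : ℤ) + ((σ z q : ℕ) : ℤ) * c) hn'
    constructor
    · simpa using h1
    · simpa using h2
  · simp only [P]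
    have h1 : ((σ z q : ℕ) : ℤ) ≤ 2 := by
      have := (σ z q).2
      omega
    have h2 : (0 : ℤ) ≤ ((σ z q : ℕ) : ℤ) := by positivity
    have h3 : (((z : ℕ) : ℤ)) + 1 ≤ m := by exact_mod_cast z.2
    have h4 : (0 : ℤ) ≤ ((z : ℕ) : ℤ) := by positivity
    have h5 : ((σ z q : ℕ) : ℤ) * m ≤ 2 * m := by
      apply mul_le_mul_of_nonneg_right h1 (by positivity)
    have h6 : (0 : ℤ) ≤ ((σ z q : ℕ) : ℤ) * m := by positivity
    have h7 : (n : ℤ) = 3 * m := by exact_mod_cast hnm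
    constructor
    · simpa using (by linarith : (0 : ℤ) ≤ ((z : ℕ) : ℤ) + ((σ z q : ℕ) : ℤ) * m)
    · simpa using (by rw [h7]; linarith : ((z : ℕ) : ℤ) + ((σ z q : ℕ) : ℤ) * m + 1 ≤ (n : ℤ))

theorem S_tiles (hm : 0 < m) (hn : 0 < n) (σ : Fin m → Q n → Fin 3) :
    Tiles (S n m a b c σ) := by
  refine ⟨L n m a b c, fun x => ?_⟩
  obtain ⟨r1, r2, r3, r4, r5, r6⟩ := red_range (a := a) (b := b) (c := c) hm hn x
  obtain ⟨q1, hq1⟩ := Int.eq_ofNat_of_zero_le r1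
  obtain ⟨q2, hq2⟩ := Int.eq_ofNat_of_zero_le r3
  obtain ⟨z, hz⟩ := Int.eq_ofNat_of_zero_le r5
  have hq1' : q1 < n := by rw [hq1] at r2; exact_mod_cast r2
  have hq2' : q2 < n := by rw [hq2] at r4; exact_mod_cast r4
  have hz' : z < m := by rw [hz] at r6; exact_mod_cast r6
  let z0 : Fin m := ⟨z, hz'⟩
  let q0 : Q n := (⟨q1, hq1'⟩, ⟨q2, hq2'⟩)
  let s := P n m a b c ((z0 : ℕ) : ℤ) ((q0.1 : ℕ) : ℤ) ((q0.2 : ℕ) : ℤ) ((σ z0 q0 : ℕ) : ℤ)
  have hs : s ∈ S n m a b c σ := mem_S.2 ⟨z0, q0, rfl⟩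
  have hr : red n m a b c x = red n m a b c s := by
    rw [red_P' hm hn]
    exact Prod.ext hq1 (Prod.ext hq2 hz)
  refine ⟨(s, x - s), ⟨hs, sub_mem x s hr, by simp⟩, ?_⟩
  rintro ⟨s', τ⟩ ⟨h1, h2, h3⟩
  simp only at h1 h2 h3
  have h4 : red n m a b c x = red n m a b c s' := by rw [h3, red_add hm hn _ _ h2]
  have h5 : s' = s := S_unique hm hn h1 hs (h4.symm.trans hr)
  subst h5
  rw [Prod.mk.injEq]
  exact ⟨rfl, by rw [h3]; simp⟩

/-- a point of layer `1` -/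
theorem layer_one (hn : 0 < n) (z : Fin m) {X Y : ℤ} (hX : 0 ≤ X) (hX' : X < n)
    (hY : 0 ≤ Y) (hY' : Y < n) : ∃ q : Q n,
    P n m a b c ((z : ℕ) : ℤ) ((q.1 : ℕ) : ℤ) ((q.2 : ℕ) : ℤ) 1 = ![X + 1, Y + 1, ((z : ℕ) : ℤ) + m + 1] := by
  have hn' : (0 : ℤ) < n := by exact_mod_cast hn
  obtain ⟨y, hy⟩ := Int.eq_ofNat_of_zero_le (Int.emod_nonneg (Y - c) hn'.ne')
  have hy' : y < n := by
    have := Int.emod_lt_of_pos (Y - c) hn'
    rw [hy] at this; exact_mod_cast this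
  set l := (Y - c) / (n : ℤ) with hl
  obtain ⟨x, hx⟩ := Int.eq_ofNat_of_zero_le (Int.emod_nonneg (X - b - l * a) hn'.ne')
  have hx' : x < n := by
    have := Int.emod_lt_of_pos (X - b - l * a) hn'
    rw [hx] at this; exact_mod_cast this
  refine ⟨(⟨x, hx'⟩, ⟨y, hy'⟩), ?_⟩
  simp only [P, one_mul]
  have e1 : (((y : ℕ) : ℤ)) + c = Y + (-l) * n := by
    have h1 := Int.emod_add_mul_ediv (Y - c) n
    rw [hy, ← hl] at h1
    have h2 : ((y : ℕ) : ℤ) = (Int.ofNat y) := rfl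
    rw [h2]
    linear_combination h1
  have e2 : ((((y : ℕ) : ℤ)) + c) / (n : ℤ) = -l := by
    rw [e1, Int.add_mul_ediv_right _ _ hn'.ne', Int.ediv_eq_zero_of_lt hY hY', zero_add]
  have e3 : ((((y : ℕ) : ℤ)) + c) % (n : ℤ) = Y := by
    rw [e1, Int.add_mul_emod_self_right, Int.emod_eq_of_lt hY hY']
  rw [e2, e3]
  have e4 : (((x : ℕ) : ℤ)) + b - a * -l = X + (-((X - b - l * a) / n)) * n := by
    have h1 := Int.emod_add_mul_ediv (X - b - l * a) n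
    rw [hx] at h1
    have h2 : ((x : ℕ) : ℤ) = (Int.ofNat x) := rfl
    rw [h2]
    linear_combination h1
  rw [e4, Int.add_mul_emod_self_right, Int.emod_eq_of_lt hX hX']

/-- two tiles of different families coincide only if the choice function avoids a pattern -/
theorem avoid (hm : 0 < m) (hn : 0 < n) {a' b' c' : ℤ} (q₁ : Q n)
    (hq : ∀ z : ℤ, P n m a b c z ((q₁.1 : ℕ) : ℤ) ((q₁.2 : ℕ) : ℤ) 1 ≠
      P n m a' b' c' z ((q₁.1 : ℕ) : ℤ) ((q₁.2 : ℕ) : ℤ) 1) :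
    ∃ q₂ : Q n, q₂ ≠ q₁ ∧ ∀ σ σ' : Fin m → Q n → Fin 3, S n m a b c σ = S n m a' b' c' σ' →
      ∀ z : Fin m, ¬ (σ z q₁ = 0 ∧ σ z q₂ = 1) := by
  have hn' : (0 : ℤ) < n := by exact_mod_cast hn
  have hm' : (m : ℤ) ≠ 0 := by exact_mod_cast hm.ne'
  have key : ∃ q₂ : Q n, ∀ z : Fin m, P n m a b c ((z : ℕ) : ℤ) ((q₂.1 : ℕ) : ℤ) ((q₂.2 : ℕ) : ℤ) 1 =
      P n m a' b' c' ((z : ℕ) : ℤ) ((q₁.1 : ℕ) : ℤ) ((q₁.2 : ℕ) : ℤ) 1 := by
    obtain ⟨q₂, hq₂⟩ := layer_one (a := a) (b := b) (c := c) hn ⟨0, hm⟩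
      (X := (((q₁.1 : ℕ) : ℤ) + 1 * b' - a' * ((((q₁.2 : ℕ) : ℤ) + 1 * c') / n)) % n)
      (Y := (((q₁.2 : ℕ) : ℤ) + 1 * c') % n)
      (Int.emod_nonneg _ hn'.ne') (Int.emod_lt_of_pos _ hn') (Int.emod_nonneg _ hn'.ne')
      (Int.emod_lt_of_pos _ hn')
    refine ⟨q₂, fun z => ?_⟩
    have h0 := congrFun hq₂ 0
    have h1 := congrFun hq₂ 1
    simp only [P, Matrix.cons_val_zero, Matrix.cons_val_one] at h0 h1
    ext i
    fin_cases i
    · simpa [P] using h0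
    · simpa [P] using h1
    · simp [P]
  obtain ⟨q₂, hq₂⟩ := key
  refine ⟨q₂, ?_, ?_⟩
  · rintro rfl
    exact hq _ (hq₂ ⟨0, hm⟩)
  · rintro σ σ' hS z ⟨h1, h2⟩
    have m1 : P n m a b c ((z : ℕ) : ℤ) ((q₁.1 : ℕ) : ℤ) ((q₁.2 : ℕ) : ℤ) 0 ∈ S n m a b c σ :=
      mem_S.2 ⟨z, q₁, by rw [h1]; simp⟩
    have m2 : P n m a b c ((z : ℕ) : ℤ) ((q₂.1 : ℕ) : ℤ) ((q₂.2 : ℕ) : ℤ) 1 ∈ S n m a b c σ :=
      mem_S.2 ⟨z, q₂, by rw [h2]; simp⟩
    have e0 : P n m a b c ((z : ℕ) : ℤ) ((q₁.1 : ℕ) : ℤ) ((q₁.2 : ℕ) : ℤ) 0 =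
        P n m a' b' c' ((z : ℕ) : ℤ) ((q₁.1 : ℕ) : ℤ) ((q₁.2 : ℕ) : ℤ) 0 := by
      have l1 : (((q₁.2 : ℕ) : ℤ)) / (n : ℤ) = 0 :=
        Int.ediv_eq_zero_of_lt (by positivity) (by exact_mod_cast q₁.2.2)
      simp [P, l1]
    rw [hq₂ z] at m2
    rw [e0] at m1
    rw [hS] at m1 m2
    have h3 := S_unique hm hn m1 m2 (by rw [red_P' hm hn, red_P' hm hn])
    have h4 := P_inj hm h3
    exact absurd h4 (by norm_num)

theorem P_zero_zero (z : ℤ) (hb : 0 ≤ b) (hb' : b < n) (hc : 0 ≤ c) (hc' : c < n) :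
    P n m a b c z 0 0 1 = ![b + 1, c + 1, z + m + 1] := by
  have l1 : c / (n : ℤ) = 0 := Int.ediv_eq_zero_of_lt hc hc'
  simp [P, l1, Int.emod_eq_of_lt hb hb', Int.emod_eq_of_lt hc hc']

theorem P_zero_last (hn : 0 < n) (z : ℤ) (hc : 1 ≤ c) (hc' : c < n) :
    P n m a b c z 0 (n - 1) 1 = ![(b - a) % n + 1, c, z + m + 1] := by
  have hn' : (n : ℤ) ≠ 0 := by exact_mod_cast hn.ne'
  have l0 : (n : ℤ) - 1 + c = (c - 1) + 1 * n := by ring
  have l1 : ((n : ℤ) - 1 + c) / (n : ℤ) = 1 := by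
    rw [l0, Int.add_mul_ediv_right _ _ hn', Int.ediv_eq_zero_of_lt (by omega) (by omega), zero_add]
  have l2 : ((n : ℤ) - 1 + c) % (n : ℤ) = c - 1 := by
    rw [l0, Int.add_mul_emod_self_right, Int.emod_eq_of_lt (by omega) (by omega)]
  simp [P, l1, l2]

theorem param_ne (hn : 0 < n) {a' b' c' : ℤ} (ha : 0 ≤ a ∧ a < n) (hb : 0 ≤ b ∧ b < n)
    (hc : 1 ≤ c ∧ c < n) (ha' : 0 ≤ a' ∧ a' < n) (hb' : 0 ≤ b' ∧ b' < n) (hc' : 1 ≤ c' ∧ c' < n)
    (hne : ¬ (a = a' ∧ b = b' ∧ c = c')) :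
    ∃ q₁ : Q n, ∀ z : ℤ, P n m a b c z ((q₁.1 : ℕ) : ℤ) ((q₁.2 : ℕ) : ℤ) 1 ≠
      P n m a' b' c' z ((q₁.1 : ℕ) : ℤ) ((q₁.2 : ℕ) : ℤ) 1 := by
  by_cases hbc : b = b' ∧ c = c'
  · obtain ⟨rfl, rfl⟩ := hbc
    have haa : a ≠ a' := fun h => hne ⟨h, rfl, rfl⟩
    refine ⟨(⟨0, hn⟩, ⟨n - 1, by omega⟩), fun z h => ?_⟩
    have e : (((n - 1 : ℕ) : ℕ) : ℤ) = (n : ℤ) - 1 := by
      rw [Nat.cast_sub (by omega)]; simp
    simp only [Nat.cast_zero, e] at h
    rw [P_zero_last hn z hc.1 hc.2, P_zero_last hn z hc.1 hc.2] at h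
    have h0 := congrFun h 0
    simp only [Matrix.cons_val_zero, add_left_inj] at h0
    have h1 : (n : ℤ) ∣ (b - a) - (b - a') := Int.ModEq.dvd (show (b - a') ≡ (b - a) [ZMOD n] from h0.symm)
    obtain ⟨k, hk⟩ := h1
    have hn' : (0 : ℤ) < n := by exact_mod_cast hn
    have hk0 : k = 0 := by
      by_contra hk0
      rcases lt_or_gt_of_ne hk0 with h2 | h2
      · nlinarith
      · nlinarith
    rw [hk0] at hk
    apply haa
    linarith
  · refine ⟨(⟨0, hn⟩, ⟨0, hn⟩), fun z h => hbc ?_⟩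
    simp only [Nat.cast_zero] at h
    rw [P_zero_zero z hb.1 hb.2 (by omega) hc.2, P_zero_zero z hb'.1 hb'.2 (by omega) hc'.2] at h
    have h0 := congrFun h 0
    have h1 := congrFun h 1
    simp only [Matrix.cons_val_zero, Matrix.cons_val_one, add_left_inj] at h0 h1
    exact ⟨h0, h1⟩

end families

section counting

theorem card_avoid {Q : Type} [Fintype Q] [DecidableEq Q] (q₁ q₂ : Q) (hq : q₂ ≠ q₁) :
    9 * (Finset.univ.filter fun τ : Q → Fin 3 => ¬ (τ q₁ = 0 ∧ τ q₂ = 1)).card ≤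
      8 * 3 ^ Fintype.card Q := by
  have h1 : (Finset.univ.filter fun τ : Q → Fin 3 => (τ q₁ = 0 ∧ τ q₂ = 1)).card +
      (Finset.univ.filter fun τ : Q → Fin 3 => ¬ (τ q₁ = 0 ∧ τ q₂ = 1)).card =
      3 ^ Fintype.card Q := by
    rw [Finset.card_filter_add_card_filter_not, Finset.card_univ, Fintype.card_fun, Fintype.card_fin]
  have h2 : 3 ^ Fintype.card Q ≤
      (Finset.univ.filter fun τ : Q → Fin 3 => (τ q₁ = 0 ∧ τ q₂ = 1)).card * 9 := by
    have e : 3 ^ Fintype.card Q = (Finset.univ : Finset (Q → Fin 3)).card := by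
      rw [Finset.card_univ, Fintype.card_fun, Fintype.card_fin]
    have e2 : (9 : ℕ) = (Finset.univ : Finset (Fin 3 × Fin 3)).card := by simp
    rw [e]
    conv_rhs => rw [e2]
    rw [← Finset.card_product]
    refine Finset.card_le_card_of_injOn
      (fun τ => (Function.update (Function.update τ q₁ 0) q₂ 1, (τ q₁, τ q₂))) ?_ ?_
    · intro τ _
      rw [Finset.mem_coe, Finset.mem_product]
      refine ⟨?_, Finset.mem_univ _⟩
      simp only [Finset.mem_filter, Finset.mem_univ, true_and]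
      constructor
      · rw [Function.update_of_ne hq.symm, Function.update_self]
      · rw [Function.update_self]
    · intro τ _ τ' _ h
      simp only [Prod.mk.injEq] at h
      obtain ⟨h0, h1, h2⟩ := h
      funext q
      by_cases hq1 : q = q₁
      · rw [hq1, h1]
      · by_cases hq2 : q = q₂
        · rw [hq2, h2]
        · have := congrFun h0 q
          rwa [Function.update_of_ne hq2, Function.update_of_ne hq1, Function.update_of_ne hq2,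
            Function.update_of_ne hq1] at this
  omega

/-- the elements of `F i` which lie in no other member of the family -/
theorem card_union_ge {ι α : Type*} [Fintype ι] [DecidableEq ι] [DecidableEq α] (F : ι → Finset α)
    (U : Finset α) (hU : ∀ i, F i ⊆ U) (A B : ℝ) (hA : ∀ i, A ≤ (F i).card)
    (hB : ∀ i j, i ≠ j → (((F i) ∩ (F j)).card : ℝ) ≤ B) (hB0 : 0 ≤ B) :
    (Fintype.card ι : ℝ) * (A - Fintype.card ι * B) ≤ U.card := by
  let G : ι → Finset α := fun i => F i \ (Finset.univ.erase i).biUnion F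
  have hG : ∀ i, A - Fintype.card ι * B ≤ (G i).card := by
    intro i
    have h1 : F i ⊆ G i ∪ (Finset.univ.erase i).biUnion (fun j => F i ∩ F j) := by
      intro x hx
      by_cases h : x ∈ (Finset.univ.erase i).biUnion F
      · rw [Finset.mem_union]
        right
        rw [Finset.mem_biUnion] at h ⊢
        obtain ⟨j, hj, hj2⟩ := h
        exact ⟨j, hj, Finset.mem_inter.2 ⟨hx, hj2⟩⟩
      · rw [Finset.mem_union]
        left
        exact Finset.mem_sdiff.2 ⟨hx, h⟩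
    have h2 : ((F i).card : ℝ) ≤ (G i).card +
        ((Finset.univ.erase i).biUnion (fun j => F i ∩ F j)).card := by
      exact_mod_cast (Finset.card_le_card h1).trans (Finset.card_union_le _ _)
    have h3 : (((Finset.univ.erase i).biUnion (fun j => F i ∩ F j)).card : ℝ) ≤
        Fintype.card ι * B := by
      calc (((Finset.univ.erase i).biUnion (fun j => F i ∩ F j)).card : ℝ)
          ≤ ∑ j ∈ Finset.univ.erase i, ((F i ∩ F j).card : ℝ) := by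
            exact_mod_cast Finset.card_biUnion_le
        _ ≤ ∑ j ∈ Finset.univ.erase i, B := by
            refine Finset.sum_le_sum fun j hj => hB i j ?_
            exact (Finset.ne_of_mem_erase hj).symm
        _ ≤ ∑ j : ι, B := by
            refine Finset.sum_le_sum_of_subset_of_nonneg (Finset.erase_subset _ _) ?_
            intros; exact hB0
        _ = Fintype.card ι * B := by
            rw [Finset.sum_const, Finset.card_univ, nsmul_eq_mul]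
    have h4 := hA i
    linarith
  have hdis : ∀ i ∈ (Finset.univ : Finset ι), ∀ j ∈ (Finset.univ : Finset ι), i ≠ j →
      Disjoint (G i) (G j) := by
    intro i _ j _ hij
    rw [Finset.disjoint_left]
    intro x hx hx'
    rw [Finset.mem_sdiff] at hx hx'
    apply hx.2
    rw [Finset.mem_biUnion]
    exact ⟨j, Finset.mem_erase.2 ⟨hij.symm, Finset.mem_univ _⟩, hx'.1⟩
  have h5 : (Finset.univ.biUnion G).card = ∑ i, (G i).card := Finset.card_biUnion hdis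
  have h6 : (Finset.univ.biUnion G) ⊆ U := by
    rw [Finset.biUnion_subset]
    intro i _
    exact Finset.sdiff_subset.trans (hU i)
  have h7 : ((Finset.univ.biUnion G).card : ℝ) ≤ U.card := by
    exact_mod_cast Finset.card_le_card h6
  rw [h5] at h7
  push_cast at h7
  calc (Fintype.card ι : ℝ) * (A - Fintype.card ι * B) = ∑ i : ι, (A - Fintype.card ι * B) := by
        rw [Finset.sum_const, Finset.card_univ, nsmul_eq_mul]
    _ ≤ ∑ i, ((G i).card : ℝ) := Finset.sum_le_sum fun i _ => hG i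
    _ ≤ U.card := h7

open Classical in
/-- lower bound for the number of tiles in the cube of side `3 m` -/
theorem lower (m n : ℕ) (hnm : n = 3 * m) (hm : 0 < m) :
    ((n * (n * (n - 1) : ℕ) : ℕ) : ℝ) * ((3 : ℝ) ^ (n * n * m) -
      ((n * (n * (n - 1) : ℕ) : ℕ) : ℝ) * ((8 / 9 : ℝ) ^ m * 3 ^ (n * n * m))) ≤ t n 3 := by
  have hn : 0 < n := by omega
  let ι : Type := Fin n × Fin n × Fin (n - 1)
  let F : ι → Finset (Finset (Fin 3 → ℤ)) := fun p =>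
    Finset.univ.image (S n m ((p.1 : ℕ) : ℤ) ((p.2.1 : ℕ) : ℤ) (((p.2.2 : ℕ) : ℤ) + 1))
  have hcard : Fintype.card ι = n * (n * (n - 1)) := by
    simp [ι, Fintype.card_prod, Fintype.card_fin]
  have hQ : Fintype.card (Q n) = n * n := by simp [Q]
  have hfun : Fintype.card (Fin m → Q n → Fin 3) = 3 ^ (n * n * m) := by
    rw [Fintype.card_fun, Fintype.card_fun, hQ, Fintype.card_fin, Fintype.card_fin, ← pow_mul]
  have hU : ∀ p, F p ⊆ ((cube 3 n).powerset.filter fun S => Tiles S) := by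
    intro p X hX
    obtain ⟨σ, -, rfl⟩ := Finset.mem_image.1 hX
    rw [Finset.mem_filter, Finset.mem_powerset]
    exact ⟨S_sub hnm hm σ, S_tiles hm hn σ⟩
  have hA : ∀ p, (3 : ℝ) ^ (n * n * m) ≤ (F p).card := by
    intro p
    have : (F p).card = 3 ^ (n * n * m) := by
      rw [Finset.card_image_of_injective _ (S_inj hm hn), Finset.card_univ, hfun]
    rw [this]
    push_cast
    exact le_rfl
  have hB : ∀ p p' : ι, p ≠ p' → (((F p) ∩ (F p')).card : ℝ) ≤ (8 / 9 : ℝ) ^ m * 3 ^ (n * n * m) := by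
    intro p p' hpp
    have hne : ¬ (((p.1 : ℕ) : ℤ) = ((p'.1 : ℕ) : ℤ) ∧ ((p.2.1 : ℕ) : ℤ) = ((p'.2.1 : ℕ) : ℤ) ∧
        (((p.2.2 : ℕ) : ℤ) + 1) = (((p'.2.2 : ℕ) : ℤ) + 1)) := by
      rintro ⟨h1, h2, h3⟩
      apply hpp
      have h3' : ((p.2.2 : ℕ) : ℤ) = ((p'.2.2 : ℕ) : ℤ) := by linarith
      exact Prod.ext (Fin.ext (by exact_mod_cast h1)) (Prod.ext (Fin.ext (by exact_mod_cast h2))
        (Fin.ext (by exact_mod_cast h3')))
    have hr : ∀ r : ι, (0 ≤ (((r.1 : ℕ) : ℤ)) ∧ (((r.1 : ℕ) : ℤ)) < n) ∧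
        (0 ≤ (((r.2.1 : ℕ) : ℤ)) ∧ (((r.2.1 : ℕ) : ℤ)) < n) ∧
        (1 ≤ (((r.2.2 : ℕ) : ℤ)) + 1 ∧ (((r.2.2 : ℕ) : ℤ)) + 1 < n) := by
      intro r
      have h1 := r.1.2
      have h2 := r.2.1.2
      have h3 := r.2.2.2
      refine ⟨⟨by positivity, by exact_mod_cast h1⟩, ⟨by positivity, by exact_mod_cast h2⟩, ?_, ?_⟩
      · have : (0 : ℤ) ≤ ((r.2.2 : ℕ) : ℤ) := by positivity
        linarith
      · have : (r.2.2 : ℕ) + 1 < n := by omega
        exact_mod_cast this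
    obtain ⟨q₁, hq₁⟩ := param_ne (m := m) hn (hr p).1 (hr p).2.1 (hr p).2.2 (hr p').1 (hr p').2.1
      (hr p').2.2 hne
    obtain ⟨q₂, hq₂, hav⟩ := avoid hm hn q₁ hq₁
    let A : Finset (Q n → Fin 3) := Finset.univ.filter fun τ : Q n → Fin 3 => ¬ (τ q₁ = 0 ∧ τ q₂ = 1)
    have hA9 : 9 * A.card ≤ 8 * 3 ^ (n * n) := by
      have := card_avoid q₁ q₂ hq₂
      rw [hQ] at this
      exact this
    have hsub : F p ∩ F p' ⊆ (Fintype.piFinset fun _ : Fin m => A).image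
        (S n m ((p.1 : ℕ) : ℤ) ((p.2.1 : ℕ) : ℤ) (((p.2.2 : ℕ) : ℤ) + 1)) := by
      intro X hX
      rw [Finset.mem_inter] at hX
      obtain ⟨σ, -, hσ⟩ := Finset.mem_image.1 hX.1
      obtain ⟨σ', -, hσ'⟩ := Finset.mem_image.1 hX.2
      rw [Finset.mem_image]
      refine ⟨σ, ?_, hσ⟩
      rw [Fintype.mem_piFinset]
      intro z
      simp only [A, Finset.mem_filter, Finset.mem_univ, true_and]
      exact hav σ σ' (hσ.trans hσ'.symm) z
    have h1 : (F p ∩ F p').card ≤ A.card ^ m := by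
      refine (Finset.card_le_card hsub).trans (Finset.card_image_le.trans ?_)
      rw [Fintype.card_piFinset]
      simp
    have h2 : (A.card : ℝ) ≤ 8 / 9 * 3 ^ (n * n) := by
      have : (9 : ℝ) * A.card ≤ 8 * 3 ^ (n * n) := by exact_mod_cast hA9
      linarith
    calc (((F p) ∩ (F p')).card : ℝ) ≤ (A.card : ℝ) ^ m := by exact_mod_cast h1
      _ ≤ (8 / 9 * 3 ^ (n * n)) ^ m := pow_le_pow_left₀ (by positivity) h2 m
      _ = (8 / 9 : ℝ) ^ m * 3 ^ (n * n * m) := by rw [mul_pow, ← pow_mul]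
  have := card_union_ge F _ hU ((3 : ℝ) ^ (n * n * m)) ((8 / 9 : ℝ) ^ m * 3 ^ (n * n * m)) hA hB
    (by positivity)
  rw [hcard] at this
  exact this

end counting

/-- The tiles in `[n]^3` are at least `c n^3 (3^(1/3))^(n^3)` in number for some `c > 0` and all
large multiples `n` of `3`. -/
theorem lower_bound : ∃ N : ℕ, ∀ n : ℕ, N ≤ n → 3 ∣ n →
    (1 / 4 : ℝ) * (n : ℝ) ^ 3 * ((3 : ℝ) ^ ((1 : ℝ) / 3)) ^ (n ^ 3) ≤ t n 3 := by
  have hlim : Filter.Tendsto (fun m : ℕ => (m : ℝ) ^ 3 * (8 / 9 : ℝ) ^ m) Filter.atTop (nhds 0) :=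
    tendsto_pow_const_mul_const_pow_of_lt_one 3 (by norm_num) (by norm_num)
  have hev : ∀ᶠ m : ℕ in Filter.atTop, (m : ℝ) ^ 3 * (8 / 9 : ℝ) ^ m < 1 / 108 :=
    hlim.eventually (gt_mem_nhds (by norm_num))
  obtain ⟨M, hM⟩ := Filter.eventually_atTop.1 hev
  refine ⟨3 * (M + 6), fun n hn h3 => ?_⟩
  obtain ⟨m, hm⟩ := h3
  have hm6 : M + 6 ≤ m := by omega
  have h1 := hM m (by omega)
  have h2 := lower m n hm (by omega)
  have hnr : (n : ℝ) = 3 * m := by rw [hm]; push_cast; ring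
  have hm1 : (6 : ℝ) ≤ m := by exact_mod_cast (by omega : 6 ≤ m)
  set K : ℝ := ((n * (n * (n - 1) : ℕ) : ℕ) : ℝ) with hK
  have hKe : K = (n : ℝ) * (n * (n - 1)) := by
    rw [hK]; push_cast; rw [Nat.cast_sub (by omega)]; push_cast; ring
  have hK1 : (n : ℝ) ^ 3 / 2 ≤ K := by
    rw [hKe]
    have : (2 : ℝ) ≤ n := by rw [hnr]; linarith
    have h3 : 0 ≤ (n : ℝ) * (n * (n / 2 - 1)) := by
      have : 0 ≤ (n : ℝ) / 2 - 1 := by linarith
      positivity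
    nlinarith
  have hK2 : K ≤ 27 * (m : ℝ) ^ 3 := by
    rw [hKe, hnr]
    have : (0 : ℝ) ≤ (m : ℝ) ^ 2 := by positivity
    nlinarith
  have hK3 : K * (8 / 9 : ℝ) ^ m ≤ 1 / 4 := by
    calc K * (8 / 9 : ℝ) ^ m ≤ 27 * (m : ℝ) ^ 3 * (8 / 9 : ℝ) ^ m :=
          mul_le_mul_of_nonneg_right hK2 (by positivity)
      _ = 27 * ((m : ℝ) ^ 3 * (8 / 9 : ℝ) ^ m) := by ring
      _ ≤ 27 * (1 / 108) := by linarith
      _ = 1 / 4 := by norm_num
  have hpow : ((3 : ℝ) ^ ((1 : ℝ) / 3)) ^ (n ^ 3) = 3 ^ (n * n * m) := by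
    rw [← Real.rpow_natCast, ← Real.rpow_mul (by norm_num), ← Real.rpow_natCast]
    congr 1
    push_cast
    rw [hnr]
    ring
  rw [hpow]
  have h4 : (0 : ℝ) ≤ (3 : ℝ) ^ (n * n * m) := by positivity
  have h0 : 0 ≤ K := le_trans (by positivity) hK1
  calc (1 / 4 : ℝ) * (n : ℝ) ^ 3 * 3 ^ (n * n * m)
      ≤ (n : ℝ) ^ 3 / 2 * (3 / 4) * 3 ^ (n * n * m) := by
        apply mul_le_mul_of_nonneg_right _ h4
        have : (0 : ℝ) ≤ (n : ℝ) ^ 3 := by positivity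
        linarith
    _ ≤ K * (3 / 4) * 3 ^ (n * n * m) := by gcongr
    _ ≤ K * (1 - K * (8 / 9 : ℝ) ^ m) * 3 ^ (n * n * m) := by
        apply mul_le_mul_of_nonneg_right _ h4
        apply mul_le_mul_of_nonneg_left _ h0
        linarith
    _ = K * ((3 : ℝ) ^ (n * n * m) - K * ((8 / 9 : ℝ) ^ m * 3 ^ (n * n * m))) := by ring
    _ ≤ t n 3 := h2

/-- The answer to Q2 is negative: it is not true that for every `d ≥ 1` the number of subsets of
`[n]^d` that tile `ℤ^d` is `O(n^(d-1) (3^(1/3))^(n^d))`.  For `d = 3` this number is at least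
`(1/4) n^3 (3^(1/3))^(n^3)` for all large multiples `n` of `3`. -/
theorem result :
    (¬ ∀ d : ℕ, 1 ≤ d → (fun n : ℕ => (t n d : ℝ)) =O[Filter.atTop]
      fun n : ℕ => (n : ℝ) ^ (d - 1) * ((3 : ℝ) ^ ((1 : ℝ) / 3)) ^ (n ^ d)) ∧
    ∃ N : ℕ, ∀ n : ℕ, N ≤ n → 3 ∣ n →
      (1 / 4 : ℝ) * (n : ℝ) ^ 3 * ((3 : ℝ) ^ ((1 : ℝ) / 3)) ^ (n ^ 3) ≤ t n 3 := by
  refine ⟨fun H => ?_, lower_bound⟩
  obtain ⟨N, hN⟩ := lower_bound
  obtain ⟨C, hC⟩ := (H 3 (by norm_num)).bound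
  obtain ⟨N', hN'⟩ := Filter.eventually_atTop.1 hC
  obtain ⟨k, hk⟩ := exists_nat_gt (4 * C)
  set n : ℕ := 3 * (N + N' + k + 1) with hn
  have h1 := hN n (by omega) ⟨_, rfl⟩
  have h2 := hN' n (by omega)
  have hpos : (0 : ℝ) < ((3 : ℝ) ^ ((1 : ℝ) / 3)) ^ (n ^ 3) := by positivity
  rw [Real.norm_of_nonneg (by positivity), Real.norm_of_nonneg (by positivity)] at h2
  have hn0 : (0 : ℝ) < n := by exact_mod_cast (by omega : 0 < n)
  have h3 : (1 / 4 : ℝ) * (n : ℝ) ^ 3 * ((3 : ℝ) ^ ((1 : ℝ) / 3)) ^ (n ^ 3) ≤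
      C * ((n : ℝ) ^ (3 - 1) * ((3 : ℝ) ^ ((1 : ℝ) / 3)) ^ (n ^ 3)) := h1.trans h2
  have h4 : (1 / 4 : ℝ) * n * ((n : ℝ) ^ 2 * ((3 : ℝ) ^ ((1 : ℝ) / 3)) ^ (n ^ 3)) ≤
      C * ((n : ℝ) ^ 2 * ((3 : ℝ) ^ ((1 : ℝ) / 3)) ^ (n ^ 3)) := by
    calc _ = (1 / 4 : ℝ) * (n : ℝ) ^ 3 * ((3 : ℝ) ^ ((1 : ℝ) / 3)) ^ (n ^ 3) := by ring
      _ ≤ _ := h3
  have h5 : (1 / 4 : ℝ) * n ≤ C := le_of_mul_le_mul_right h4 (by positivity)
  have h6 : (k : ℝ) ≤ n := by exact_mod_cast (by omega : k ≤ n)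
  linarith

end Pool.Agent.Results.MP_13da68_co.ExponentTooSmall
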